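import Mathlib

/-!
# A form of Clifford's theorem, and the node condition
-/

set_option autoImplicit false

namespace Pool.Agent.TR

open Module

variable {k V G : Type*} [Field k] [AddCommGroup V] [Module k V] [FiniteDimensional k V] [Group G]

/-- The statement the interval `[U₁, U₂]` of `G`-stable subspaces contains a nonzero subquotient
on which `H` acts trivially. -/
def Good (π : Representation k G V) (H : Subgroup G) (U₁ U₂ : Submodule k V) : Prop :=
  (∀ g, ∀ x ∈ U₁, π g x ∈ U₁) ∧ (∀ g, ∀ x ∈ U₂, π g x ∈ U₂) ∧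
    ∃ W₁ W₂ : Submodule k V, U₁ ≤ W₁ ∧ W₁ < W₂ ∧ W₂ ≤ U₂ ∧ ∀ h ∈ H, ∀ x ∈ W₂, π h x - x ∈ W₁

theorem good_split {π : Representation k G V} {H : Subgroup G} {U₁ U₂ : Submodule k V}
    (hg : Good π H U₁ U₂) (U : Submodule k V) (hU : ∀ g, ∀ x ∈ U, π g x ∈ U) (h1 : U₁ ≤ U)
    (h2 : U ≤ U₂) : Good π H U₁ U ∨ Good π H U U₂ := by
  obtain ⟨hs1, hs2, W₁, W₂, a, b, c, d⟩ := hg
  by_cases hcase : W₂ ⊓ U ≤ W₁
  · -- then `W₁ ⊔ U < W₂ ⊔ U`
    refine Or.inr ⟨hU, hs2, W₁ ⊔ U, W₂ ⊔ U, le_sup_right, ?_, sup_le c h2, ?_⟩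
    · refine lt_of_le_of_ne (sup_le_sup_right b.le U) fun heq => ?_
      apply b.not_ge
      intro x hx
      have hx' : x ∈ W₁ ⊔ U := by
        rw [heq]
        exact Submodule.mem_sup_left hx
      obtain ⟨y, hy, z, hz, rfl⟩ := Submodule.mem_sup.mp hx'
      have hz' : z ∈ W₂ := by
        have := W₂.sub_mem hx (b.le hy)
        simpa using this
      exact W₁.add_mem hy (hcase ⟨hz', hz⟩)
    · intro h hh x hx
      obtain ⟨y, hy, z, hz, rfl⟩ := Submodule.mem_sup.mp hx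
      have : π h (y + z) - (y + z) = (π h y - y) + (π h z - z) := by
        rw [map_add]
        abel
      rw [this]
      exact Submodule.add_mem_sup (d h hh y hy) (U.sub_mem (hU h z hz) hz)
  · refine Or.inl ⟨hs1, hU, W₁ ⊓ U, W₂ ⊓ U, le_inf a h1, ?_, inf_le_right, ?_⟩
    · refine lt_of_le_of_ne (inf_le_inf_right U b.le) fun heq => hcase ?_
      rw [← heq]
      exact inf_le_left
    · intro h hh x hx
      exact ⟨d h hh x hx.1, U.sub_mem (hU h x hx.2) hx.2⟩

/-- A nonzero subquotient on which the normal subgroup `H` acts trivially gives one that is stable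
under the whole group. -/
theorem cliff (π : Representation k G V) (H : Subgroup G) [hnorm : H.Normal]
    {W₁ W₂ : Submodule k V} (hlt : W₁ < W₂) (hH : ∀ h ∈ H, ∀ x ∈ W₂, π h x - x ∈ W₁) :
    ∃ U₁ U₂ : Submodule k V, U₁ < U₂ ∧ (∀ g, ∀ x ∈ U₁, π g x ∈ U₁) ∧
      (∀ g, ∀ x ∈ U₂, π g x ∈ U₂) ∧ ∀ h ∈ H, ∀ x ∈ U₂, π h x - x ∈ U₁ := by
  classical
  have hex : ∃ n : ℕ, ∃ U₁ U₂ : Submodule k V, Good π H U₁ U₂ ∧
      finrank k U₂ = finrank k U₁ + n := by
    refine ⟨finrank k (⊤ : Submodule k V), ⊥, ⊤, ⟨?_, fun _ _ _ => Submodule.mem_top, W₁, W₂,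
      bot_le, hlt, le_top, hH⟩, by simp⟩
    intro g x hx
    rw [Submodule.mem_bot] at hx
    rw [hx, map_zero]
    exact Submodule.zero_mem _
  obtain ⟨U₁, U₂, hgood, hn⟩ := Nat.find_spec hex
  have hmin := fun m (hm : m < Nat.find hex) => Nat.find_min hex hm
  have hle12 : U₁ ≤ U₂ := by
    obtain ⟨-, -, A₁, A₂, a, b, c, -⟩ := hgood
    exact a.trans (b.le.trans c)
  -- the interval is irreducible
  have hirr : ∀ U : Submodule k V, (∀ g, ∀ x ∈ U, π g x ∈ U) → U₁ ≤ U → U ≤ U₂ →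
      U = U₁ ∨ U = U₂ := by
    intro U hU h1 h2
    by_contra hne
    push Not at hne
    have hlt1 : finrank k U₁ < finrank k U :=
      Submodule.finrank_lt_finrank_of_lt (lt_of_le_of_ne h1 (Ne.symm hne.1))
    have hlt2 : finrank k U < finrank k U₂ :=
      Submodule.finrank_lt_finrank_of_lt (lt_of_le_of_ne h2 hne.2)
    rcases good_split hgood U hU h1 h2 with h | h
    · exact hmin (finrank k U - finrank k U₁) (by omega) ⟨U₁, U, h, by omega⟩
    · exact hmin (finrank k U₂ - finrank k U) (by omega) ⟨U, U₂, h, by omega⟩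
  obtain ⟨hs1, hs2, A₁, A₂, ha, hb, hc, hd⟩ := hgood
  have hA₁ : ∀ h ∈ H, ∀ x ∈ A₁, π h x ∈ A₁ := by
    intro h hh x hx
    have := A₁.add_mem (hd h hh x (hb.le hx)) hx
    simpa using this
  have hA₂ : ∀ h ∈ H, ∀ x ∈ A₂, π h x ∈ A₂ := by
    intro h hh x hx
    have := A₂.add_mem (hb.le (hd h hh x hx)) hx
    simpa using this
  refine ⟨U₁, U₂, lt_of_le_of_lt ha (lt_of_lt_of_le hb hc), hs1, hs2, ?_⟩
  -- the vectors fixed by `H` modulo `U₁`
  let F : Submodule k V :=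
    { carrier := {x | x ∈ U₂ ∧ ∀ h ∈ H, π h x - x ∈ U₁}
      add_mem' := by
        rintro x y ⟨hx, hx'⟩ ⟨hy, hy'⟩
        refine ⟨U₂.add_mem hx hy, fun h hh => ?_⟩
        have : π h (x + y) - (x + y) = (π h x - x) + (π h y - y) := by
          rw [map_add]
          abel
        rw [this]
        exact U₁.add_mem (hx' h hh) (hy' h hh)
      zero_mem' := ⟨U₂.zero_mem, fun h _ => by simp⟩
      smul_mem' := by
        rintro c x ⟨hx, hx'⟩
        refine ⟨U₂.smul_mem c hx, fun h hh => ?_⟩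
        rw [map_smul, ← smul_sub]
        exact U₁.smul_mem c (hx' h hh) }
  have hFdef : ∀ x, x ∈ F ↔ x ∈ U₂ ∧ ∀ h ∈ H, π h x - x ∈ U₁ := fun x => Iff.rfl
  have hFU : ∀ g, ∀ x ∈ F, π g x ∈ F := by
    intro g x hx
    rw [hFdef] at hx ⊢
    refine ⟨hs2 g x hx.1, fun h hh => ?_⟩
    have h1 : g⁻¹ * h * g ∈ H := by
      have := hnorm.conj_mem h hh g⁻¹
      simpa using this
    have h2 := hs1 g _ (hx.2 _ h1)
    have h3 : π g (π (g⁻¹ * h * g) x - x) = π h (π g x) - π g x := by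
      rw [map_sub, ← Module.End.mul_apply, ← map_mul, ← Module.End.mul_apply, ← map_mul]
      congr 3
      group
    rwa [h3] at h2
  have hU₁F : U₁ ≤ F := by
    intro x hx
    rw [hFdef]
    exact ⟨hle12 hx, fun h _ => U₁.sub_mem (hs1 h x hx) hx⟩
  have hFle : F ≤ U₂ := fun x hx => ((hFdef x).mp hx).1
  rcases hirr F hFU hU₁F hFle with hF | hF
  swap
  · intro h hh x hx
    rw [← hF, hFdef] at hx
    exact hx.2 h hh
  exfalso
  -- a minimal `H`-stable subspace `T` above `U₁`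
  have hexT : ∃ n : ℕ, ∃ T : Submodule k V, U₁ < T ∧ T ≤ U₂ ∧ (∀ h ∈ H, ∀ x ∈ T, π h x ∈ T) ∧
      finrank k T = n :=
    ⟨_, U₂, lt_of_le_of_lt ha (lt_of_lt_of_le hb hc), le_refl _, fun h _ => hs2 h, rfl⟩
  obtain ⟨T, hT1, hT2, hT3, hT4⟩ := Nat.find_spec hexT
  have hTmin : ∀ T' : Submodule k V, U₁ ≤ T' → T' ≤ T → (∀ h ∈ H, ∀ x ∈ T', π h x ∈ T') →
      T' = U₁ ∨ T' = T := by
    intro T' h1 h2 h3
    by_contra hne
    push Not at hne
    have hlt2 : finrank k T' < finrank k T :=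
      Submodule.finrank_lt_finrank_of_lt (lt_of_le_of_ne h2 hne.2)
    rw [hT4] at hlt2
    exact Nat.find_min hexT hlt2 ⟨T', lt_of_le_of_ne h1 (Ne.symm hne.1), h2.trans hT2, h3, rfl⟩
  -- the conjugates of `T` generate `U₂`
  have hgT : ∀ B : Submodule k V, (∀ g, T.map (π g) ≤ B) → U₂ ≤ B := by
    intro B hB
    let S : Submodule k V := ⨆ g, T.map (π g)
    have hS1 : ∀ g, ∀ x ∈ S, π g x ∈ S := by
      intro g x hx
      have h1 : S ≤ S.comap (π g) := by
        refine iSup_le fun g' => ?_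
        rintro _ ⟨y, hy, rfl⟩
        rw [Submodule.mem_comap]
        refine Submodule.mem_iSup_of_mem (g * g') ?_
        refine ⟨y, hy, ?_⟩
        rw [map_mul]
        rfl
      exact h1 hx
    have hTS : T ≤ S := by
      intro x hx
      refine Submodule.mem_iSup_of_mem 1 ⟨x, hx, by simp⟩
    have hS2 : S ≤ U₂ := by
      refine iSup_le fun g => ?_
      rintro _ ⟨y, hy, rfl⟩
      exact hs2 g y (hT2 hy)
    have hS3 : S ≤ B := iSup_le hB
    rcases hirr S hS1 (hT1.le.trans hTS) hS2 with h | h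
    · exact absurd (h ▸ hTS) (not_le_of_gt hT1)
    · rw [← h]
      exact hS3
  -- a maximal `H`-stable subspace `C` that meets `A₁` in `U₁`
  have hexC : ∃ n : ℕ, ∃ C : Submodule k V, U₁ ≤ C ∧ C ≤ U₂ ∧ (∀ h ∈ H, ∀ x ∈ C, π h x ∈ C) ∧
      C ⊓ A₁ ≤ U₁ ∧ finrank k C + n = finrank k V := by
    refine ⟨finrank k V - finrank k U₁, U₁, le_refl _, hle12, fun h _ => hs1 h, inf_le_left, ?_⟩
    have := Submodule.finrank_le U₁
    omega
  obtain ⟨C, hC1, hC2, hC3, hC4, hC5⟩ := Nat.find_spec hexC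
  have hsup : U₂ ≤ A₁ ⊔ C := by
    refine hgT _ fun g => ?_
    by_contra hnot
    -- `g T` meets `A₁ ⊔ C` in `U₁`
    have hmeet : T.map (π g) ⊓ (A₁ ⊔ C) ≤ U₁ := by
      let T' : Submodule k V := T ⊓ (A₁ ⊔ C).comap (π g)
      have hT'1 : U₁ ≤ T' := by
        refine le_inf hT1.le ?_
        intro x hx
        rw [Submodule.mem_comap]
        exact Submodule.mem_sup_left (ha (hs1 g x hx))
      have hT'2 : ∀ h ∈ H, ∀ x ∈ T', π h x ∈ T' := by
        intro h hh x hx
        refine ⟨hT3 h hh x hx.1, ?_⟩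
        have hx2 : π g x ∈ A₁ ⊔ C := hx.2
        change π g (π h x) ∈ A₁ ⊔ C
        have hgh : g * h * g⁻¹ ∈ H := hnorm.conj_mem h hh g
        have h3 : π g (π h x) = π (g * h * g⁻¹) (π g x) := by
          rw [← Module.End.mul_apply, ← map_mul, ← Module.End.mul_apply, ← map_mul]
          congr 2
          group
        rw [h3]
        obtain ⟨y, hy, z, hz, hyz⟩ := Submodule.mem_sup.mp hx2
        rw [← hyz, map_add]
        exact Submodule.add_mem_sup (hA₁ _ hgh y hy) (hC3 _ hgh z hz)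
      rcases hTmin T' hT'1 inf_le_left hT'2 with h | h
      · rintro _ ⟨⟨y, hy, rfl⟩, h2⟩
        have : y ∈ T' := ⟨hy, h2⟩
        rw [h] at this
        exact hs1 g y this
      · exfalso
        apply hnot
        rintro _ ⟨y, hy, rfl⟩
        have : y ∈ T' := by
          rw [h]
          exact hy
        exact this.2
    have hnotC : ¬ T.map (π g) ≤ C := fun h => hnot (h.trans le_sup_right)
    have hCC' : C < C ⊔ T.map (π g) := by
      refine lt_of_le_of_ne le_sup_left fun heq => hnotC ?_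
      rw [heq]
      exact le_sup_right
    have hfr := Submodule.finrank_lt_finrank_of_lt hCC'
    have hfr2 := Submodule.finrank_le (C ⊔ T.map (π g))
    refine Nat.find_min hexC (m := finrank k V - finrank k (C ⊔ T.map (π g) : Submodule k V))
      (by omega) ⟨C ⊔ T.map (π g), hC1.trans le_sup_left, ?_, ?_, ?_, by omega⟩
    · refine sup_le hC2 ?_
      rintro _ ⟨y, hy, rfl⟩
      exact hs2 g y (hT2 hy)
    · intro h hh x hx
      obtain ⟨y, hy, z, ⟨w, hw, rfl⟩, rfl⟩ := Submodule.mem_sup.mp hx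
      rw [map_add]
      refine Submodule.add_mem_sup (hC3 h hh y hy) ⟨π (g⁻¹ * h * g) w, ?_, ?_⟩
      · refine hT3 _ ?_ w hw
        have := hnorm.conj_mem h hh g⁻¹
        simpa using this
      · rw [← Module.End.mul_apply, ← map_mul, ← Module.End.mul_apply, ← map_mul]
        congr 2
        group
    · rintro x ⟨hx1, hx2⟩
      obtain ⟨c, hc', t, ht, rfl⟩ := Submodule.mem_sup.mp hx1
      have ht2 : t ∈ A₁ ⊔ C := by
        have : t = (c + t) + (-c) := by abel
        rw [this]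
        exact Submodule.add_mem_sup hx2 (C.neg_mem hc')
      have ht3 : t ∈ U₁ := hmeet ⟨ht, ht2⟩
      exact hC4 ⟨C.add_mem hc' (hC1 ht3), hx2⟩
  -- a vector of `A₂ ⊓ C` outside `A₁`
  have hex2 : ∃ u ∈ A₂, u ∈ C ∧ u ∉ A₁ := by
    by_contra hno
    push Not at hno
    apply hb.not_ge
    intro x hx
    obtain ⟨y, hy, z, hz, rfl⟩ := Submodule.mem_sup.mp (hsup (hc hx))
    have hz' : z ∈ A₂ := by
      have := A₂.sub_mem hx (hb.le hy)
      simpa using this
    exact A₁.add_mem hy (hno z hz' hz)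
  obtain ⟨u, hu1, hu2, hu3⟩ := hex2
  have huF : u ∈ F := by
    rw [hFdef]
    refine ⟨hc hu1, fun h hh => hC4 ⟨C.sub_mem (hC3 h hh u hu2) hu2, hd h hh u hu1⟩⟩
  rw [hF] at huF
  exact hu3 (ha huF)

/-- THE NODE CONDITION: let `D` be a set of elements `g` such that some element of `g H` has no
eigenvalue `1`; if `s` is a reflection with eigenvector `v` for `-1`, `φ v = e v`, and `s ∈ D`,
`φ ∈ D` if `e = 1` and `s φ ∈ D` if `e = -1`, then `H` acts trivially on no nonzero subquotient. -/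
theorem node (π : Representation k G V) (H : Subgroup G) [hnorm : H.Normal] (D : Set G)
    (hD : ∀ g ∈ D, ∃ h ∈ H, ∀ x, π (g * h) x = x → x = 0)
    {s φ : G} {v : V} (hv : v ≠ 0) (hs : ∀ x, ∃ c : k, π s x = x + c • v) (hsv : π s v = -v)
    {e : k} (hφ : π φ v = e • v) (hsD : s ∈ D) (he : (e = 1 ∧ φ ∈ D) ∨ (e = -1 ∧ s * φ ∈ D))
    (W₁ W₂ : Submodule k V) (hle : W₁ ≤ W₂) (hH : ∀ h ∈ H, ∀ x ∈ W₂, π h x - x ∈ W₁) :
    W₁ = W₂ := by
  by_contra hne
  obtain ⟨U₁, U₂, hlt, h1, h2, h3⟩ := cliff π H (lt_of_le_of_ne hle hne) hH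
  -- an element of `D` has no fixed vector modulo `U₁`
  have key : ∀ g ∈ D, ∀ x ∈ U₂, π g x - x ∈ U₁ → x ∈ U₁ := by
    intro g hg x hx hgx
    obtain ⟨h, hh, hfix⟩ := hD g hg
    -- `π (g h) - 1` is bijective on `V`, maps `U₁` onto `U₁`
    let f : V →ₗ[k] V := π (g * h) - 1
    have hf : Function.Injective f := by
      rw [← LinearMap.ker_eq_bot, LinearMap.ker_eq_bot']
      intro y hy
      apply hfix
      have : π (g * h) y - y = 0 := hy
      exact sub_eq_zero.mp this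
    have hmap : U₁.map f = U₁ := by
      apply Submodule.eq_of_le_of_finrank_eq
      · rintro _ ⟨y, hy, rfl⟩
        exact U₁.sub_mem (h1 _ y hy) hy
      · exact (Submodule.equivMapOfInjective f hf U₁).finrank_eq.symm
    have hfx : f x ∈ U₁ := by
      have : f x = π g (π h x - x) + (π g x - x) := by
        change π (g * h) x - x = _
        rw [map_mul, Module.End.mul_apply, map_sub]
        abel
      rw [this]
      exact U₁.add_mem (h1 g _ (h3 h hh x hx)) hgx
    rw [← hmap] at hfx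
    obtain ⟨y, hy, hxy⟩ := hfx
    rw [← hf hxy]
    exact hy
  -- `v ∈ U₂`, `v ∉ U₁`
  obtain ⟨u, hu2, hu1⟩ := Set.exists_of_ssubset hlt
  obtain ⟨c, hc⟩ := hs u
  have hcv : c • v ∈ U₂ := by
    have : c • v = π s u - u := by rw [hc]; abel
    rw [this]
    exact U₂.sub_mem (h2 s u hu2) hu2
  have hcv1 : c • v ∉ U₁ := by
    intro hcon
    apply hu1
    apply key s hsD u hu2
    rw [hc]
    simpa using hcon
  have hc0 : c ≠ 0 := by
    rintro rfl
    apply hcv1
    rw [zero_smul]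
    exact U₁.zero_mem
  have hv2 : v ∈ U₂ := by
    have := U₂.smul_mem c⁻¹ hcv
    rwa [smul_smul, inv_mul_cancel₀ hc0, one_smul] at this
  have hv1 : v ∉ U₁ := fun h => hcv1 (U₁.smul_mem c h)
  rcases he with ⟨rfl, hφD⟩ | ⟨rfl, hφD⟩
  · apply hv1
    apply key φ hφD v hv2
    rw [hφ, one_smul, sub_self]
    exact U₁.zero_mem
  · apply hv1
    apply key (s * φ) hφD v hv2
    rw [map_mul, Module.End.mul_apply, hφ, map_smul, hsv]
    simp

end Pool.Agent.TR
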