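import Pool.Agent.Lib_helper61.TB.Det
import Pool.Agent.Lib_helper61.TR.Cliff
import Pool.Agent.Lib_helper7.TE.Tools

/-!
# The node condition for compatible representations
-/

set_option autoImplicit false

namespace Pool.Agent.TR

open NumberField Topology Polynomial
open Pool.Agent.TT (Qbar)
open Pool.Agent.TB (Compatible fb_dense)

/-- **One node.** Let `A` and `π` be compatible, such that near every element with determinant
`-1` there is an element `y` without the eigenvalue `1` in `A`; suppose that `s` acts in `π` as a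
reflection with the eigenvector `x` (`π(s) x = -x`), that its determinant in `A` is `-1`, and that
`π(φ) x = - det(A(φ)) x`. Then no open subgroup acts trivially on a nonzero subquotient of `π`. -/
theorem node_false {K : Type} [Field K] [NumberField K] [Algebra K Qbar] {E : Type} [Field E]
    {p ℓ : ℕ} [Fact p.Prime] [Fact ℓ.Prime] (ip : E →+* ℂ_[p]) (il : E →+* PadicAlgCl ℓ) {m : ℕ}
    (A : (Qbar ≃ₐ[K] Qbar) →* Matrix (Fin m) (Fin m) ℂ_[p]) (hA : Continuous A)
    {V : Type} [AddCommGroup V] [Module (PadicAlgCl ℓ) V] [Module.Finite (PadicAlgCl ℓ) V]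
    (π : Representation (PadicAlgCl ℓ) (Qbar ≃ₐ[K] Qbar) V)
    (hcomp : Compatible ip il (fun _ : Fin 1 => m) (fun _ => A) π)
    (hcos : ∀ g, (A g).det = -1 → ∀ U ∈ 𝓝 g, ∃ y ∈ U, (A y - 1).det ≠ 0)
    (H : Subgroup (Qbar ≃ₐ[K] Qbar)) (hH : IsOpen (H : Set (Qbar ≃ₐ[K] Qbar)))
    (W₁ W₂ : Submodule (PadicAlgCl ℓ) V) (hW : W₁ ≤ W₂)
    (hT : ∀ h ∈ H, ∀ x ∈ W₂, π h x - x ∈ W₁) (hne : W₁ ≠ W₂)
    (s φ : Qbar ≃ₐ[K] Qbar) (x : V) (hx : x ≠ 0) (hsd : (A s).det = -1)
    (hs : ∀ y, ∃ c : PadicAlgCl ℓ, π s y - y = c • x) (hsx : π s x = -x)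
    (hφ : ((A φ).det = 1 ∧ π φ x = -x) ∨ ((A φ).det = -1 ∧ π φ x = x)) : False := by
  classical
  have hgal := Pool.Agent.TE.isGalois_Qbar (K := K)
  obtain ⟨N', hN'⟩ := ProfiniteGrp.exist_openNormalSubgroup_sub_open_nhds_of_one hH H.one_mem
  let N : Subgroup (Qbar ≃ₐ[K] Qbar) := N'.toSubgroup
  have hNn : N.Normal := N'.isNormal'
  have hNo : IsOpen (N : Set (Qbar ≃ₐ[K] Qbar)) := N'.isOpen'
  apply hne
  refine node π N {g | (A g).det = -1} (φ := φ) ?_ hx ?_ hsx (e := if (A φ).det = -1 then 1 else -1)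
    ?_ hsd ?_ W₁ W₂ hW fun h hh => hT h (hN' hh)
  · -- Frobenius elements without eigenvalue one
    intro g hg
    obtain ⟨B, hB⟩ := hcomp
    have hgN : IsOpen {y : Qbar ≃ₐ[K] Qbar | g⁻¹ * y ∈ N} :=
      hNo.preimage (continuous_const_mul g⁻¹)
    obtain ⟨y, hyN, hy⟩ := hcos g hg {y | g⁻¹ * y ∈ N} (hgN.mem_nhds (by
      show g⁻¹ * g ∈ N
      rw [inv_mul_cancel]
      exact N.one_mem))
    have hcont : Continuous (fun σ : Qbar ≃ₐ[K] Qbar => (A σ⁻¹ - 1).det) := by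
      apply Continuous.matrix_det
      exact (hA.comp continuous_inv).sub continuous_const
    have hU : {σ : Qbar ≃ₐ[K] Qbar | g⁻¹ * σ⁻¹ ∈ N ∧ (A σ⁻¹ - 1).det ≠ 0} ∈ 𝓝 y⁻¹ := by
      apply Filter.inter_mem
      · apply (hgN.preimage continuous_inv).mem_nhds
        show g⁻¹ * y⁻¹⁻¹ ∈ N
        rw [inv_inv]
        exact hyN
      · apply (isOpen_ne.preimage hcont).mem_nhds
        rw [Set.mem_preimage, inv_inv]
        exact hy
    obtain ⟨q, hq, hqB, Q, hQ, hqQ, σ, ⟨hσN, hσ0⟩, hσ⟩ := fb_dense y⁻¹ _ hU B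
    obtain ⟨f, hf1, hf2⟩ := hB q hq hqB Q hQ hqQ σ hσ
    refine ⟨g⁻¹ * σ⁻¹, hσN, ?_⟩
    rw [mul_inv_cancel_left]
    intro z hz
    by_contra hz0
    have hroot : (π σ⁻¹).charpoly.IsRoot 1 := by
      rw [← Module.End.hasEigenvalue_iff_isRoot_charpoly]
      apply Module.End.hasEigenvalue_of_hasEigenvector (x := z)
      refine ⟨?_, hz0⟩
      rw [Module.End.mem_eigenspace_iff, one_smul]
      exact hz
    rw [hf2, Polynomial.IsRoot.def, Polynomial.eval_map, ← map_one il,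
      Polynomial.eval₂_at_apply, map_eq_zero] at hroot
    apply hσ0
    rw [Finset.univ_unique, Finset.prod_singleton] at hf1
    have h1 : (A σ⁻¹).charpoly.eval 1 = 0 := by
      rw [hf1, Polynomial.eval_map, ← map_one ip, Polynomial.eval₂_at_apply, hroot, map_zero]
    rw [Matrix.eval_charpoly, map_one] at h1
    rw [← neg_sub, Matrix.det_neg, h1, mul_zero]
  · intro y
    obtain ⟨c, hc⟩ := hs y
    exact ⟨c, by rw [← hc]; abel⟩
  · rcases hφ with ⟨h1, h2⟩ | ⟨h1, h2⟩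
    · have h3 : (A φ).det ≠ -1 := by
        rw [h1]
        intro h
        have h4 : (2 : ℂ_[p]) = 0 := by linear_combination h
        exact two_ne_zero h4
      rw [if_neg h3, h2, neg_one_smul]
    · rw [if_pos h1, h2, one_smul]
  · rcases hφ with ⟨h1, h2⟩ | ⟨h1, h2⟩
    · have h3 : (A φ).det ≠ -1 := by
        rw [h1]
        intro h
        have h4 : (2 : ℂ_[p]) = 0 := by linear_combination h
        exact two_ne_zero h4
      refine Or.inr ⟨if_neg h3, ?_⟩
      show (A (s * φ)).det = -1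
      rw [map_mul, Matrix.det_mul, hsd, h1, mul_one]
    · exact Or.inl ⟨if_pos h1, h1⟩

end Pool.Agent.TR
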